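import Mathlib

/-!
# Invariants of simply connected 4-manifolds which are almost additive

By Wall two closed simply connected smooth 4-manifolds `M`, `M'` with isomorphic intersection forms
become diffeomorphic after connected sum with the same manifold `X = # k (S² × S²)`; and if only
`b_+` and `b_-` agree (one form even, the other odd), they do after connected sum with
`X = # k (S² × S²) # CP²`.  We show that an invariant with values in a Banach space which is additive
under connected sum up to an error `C (1 + b₂)^θ`, `θ < 1`, is `b_+ x + b_- y` up to an error of the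
same size.
-/

set_option autoImplicit false

open Filter Topology

namespace Pool.Agent.Results.MP_cb9bff_gt.QuasiAdditiveInvariants

/-- The closed connected simply connected oriented smooth 4-manifolds up to orientation preserving
diffeomorphism, with connected sum written additively (`0` is the 4-sphere), and the facts used. -/
class FourManifolds (𝓜 : Type*) extends AddCommMonoid 𝓜 where
  /-- the dimension of a maximal positive definite subspace of the intersection form -/
  bPlus : 𝓜 →+ ℕ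
  /-- the dimension of a maximal negative definite subspace of the intersection form -/
  bMinus : 𝓜 →+ ℕ
  /-- the complex projective plane -/
  CP2 : 𝓜
  /-- the complex projective plane with the opposite orientation -/
  CP2bar : 𝓜
  bPlus_CP2 : bPlus CP2 = 1
  bMinus_CP2 : bMinus CP2 = 0
  bPlus_CP2bar : bPlus CP2bar = 0
  bMinus_CP2bar : bMinus CP2bar = 1
  /-- Wall's stable classification -/
  wall : ∀ M N : 𝓜, bPlus M = bPlus N → bMinus M = bMinus N → ∃ X : 𝓜, M + X = N + X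

open FourManifolds

/-- the second Betti number -/
def b2 {𝓜 : Type*} [FourManifolds 𝓜] (M : 𝓜) : ℕ := bPlus M + bMinus M

variable {𝓜 : Type*} [FourManifolds 𝓜] {E : Type*} [NormedAddCommGroup E] [NormedSpace ℝ E]

lemma b2_add (M N : 𝓜) : b2 (M + N) = b2 M + b2 N := by
  unfold b2; rw [map_add, map_add]; ring

lemma b2_nsmul (n : ℕ) (M : 𝓜) : b2 (n • M) = n * b2 M := by
  unfold b2; rw [map_nsmul, map_nsmul]; simp; ring

/-- a map which is additive and agrees on manifolds with equal invariants is linear in `b_±` -/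
lemma linear_of_additive (J : 𝓜 → E) (hJ : ∀ M N, J (M + N) = J M + J N) :
    ∀ M, J M = (bPlus M : ℝ) • J CP2 + (bMinus M : ℝ) • J CP2bar := by
  intro M
  have h0 : J 0 = 0 := by
    have := hJ 0 0
    rw [add_zero] at this
    exact left_eq_add.1 this
  have hn : ∀ (n : ℕ) (N : 𝓜), J (n • N) = (n : ℝ) • J N := by
    intro n N
    induction n with
    | zero => simp [h0]
    | succ n ih =>
      rw [succ_nsmul, hJ, ih]
      push_cast
      rw [add_smul, one_smul]
  have hp : bPlus M = bPlus (bPlus M • (CP2 : 𝓜) + bMinus M • (CP2bar : 𝓜)) := by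
    rw [map_add, map_nsmul, map_nsmul, bPlus_CP2, bPlus_CP2bar]; simp
  have hm : bMinus M = bMinus (bPlus M • (CP2 : 𝓜) + bMinus M • (CP2bar : 𝓜)) := by
    rw [map_add, map_nsmul, map_nsmul, bMinus_CP2, bMinus_CP2bar]; simp
  obtain ⟨X, hX⟩ := wall M _ hp hm
  have h1 : J M + J X = J (bPlus M • (CP2 : 𝓜) + bMinus M • (CP2bar : 𝓜)) + J X := by
    rw [← hJ, ← hJ, hX]
  have h2 := add_right_cancel h1
  rw [h2, hJ, hn, hn]

/-- **Almost additive invariants.** -/
theorem result [CompleteSpace E] (I : 𝓜 → E) (C θ : ℝ) (hθ0 : 0 ≤ θ) (hθ : θ < 1)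
    (hI : ∀ M N : 𝓜, ‖I (M + N) - I M - I N‖ ≤ C * (1 + b2 M + b2 N : ℝ) ^ θ) :
    ∃ x y : E, ∀ M : 𝓜, ‖I M - (bPlus M : ℝ) • x - (bMinus M : ℝ) • y‖ ≤
      C / (2 ^ (1 - θ) - 1) * (1 + b2 M : ℝ) ^ θ := by
  have hC : 0 ≤ C := by
    have := hI 0 0
    have h1 : (1 + (b2 (0 : 𝓜) : ℝ) + (b2 (0 : 𝓜) : ℝ)) ^ θ = 1 := by
      have : b2 (0 : 𝓜) = 0 := by unfold b2; simp
      rw [this]; simp
    rw [h1, mul_one] at this
    exact (norm_nonneg _).trans this
  set r : ℝ := 2 ^ (θ - 1) with hr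
  have hr0 : 0 < r := by positivity
  have hr1 : r < 1 := by
    rw [hr]
    exact Real.rpow_lt_one_of_one_lt_of_neg (by norm_num) (by linarith)
  -- the doubling sequence
  let a : 𝓜 → ℕ → E := fun M k => ((2 : ℝ) ^ k)⁻¹ • I (2 ^ k • M)
  have ha0 : ∀ M, a M 0 = I M := fun M => by simp [a]
  have hstep : ∀ M k, ‖a M (k + 1) - a M k‖ ≤ C * (1 + b2 M : ℝ) ^ θ * r * r ^ k := by
    intro M k
    have e1 : a M (k + 1) - a M k = ((2 : ℝ) ^ (k + 1))⁻¹ •
        (I (2 ^ k • M + 2 ^ k • M) - I (2 ^ k • M) - I (2 ^ k • M)) := by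
      have : (2 ^ (k + 1) • M : 𝓜) = 2 ^ k • M + 2 ^ k • M := by
        rw [pow_succ, mul_two, add_smul]
      simp only [a]
      rw [this, smul_sub, smul_sub, sub_sub, ← two_smul ℝ (((2 : ℝ) ^ (k + 1))⁻¹ • I (2 ^ k • M)),
        smul_smul]
      congr 2
      rw [pow_succ]
      field_simp
    have hbb : (1 + (b2 (2 ^ k • M) : ℝ) + (b2 (2 ^ k • M) : ℝ)) ≤ 2 ^ (k + 1) * (1 + b2 M : ℝ) := by
      rw [b2_nsmul]
      push_cast
      have : (1 : ℝ) ≤ 2 ^ (k + 1) := one_le_pow₀ (by norm_num)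
      rw [pow_succ] at this ⊢
      nlinarith
    have h2 := hI (2 ^ k • M) (2 ^ k • M)
    have h3 : (1 + (b2 (2 ^ k • M) : ℝ) + (b2 (2 ^ k • M) : ℝ)) ^ θ ≤
        (2 ^ (k + 1) : ℝ) ^ θ * (1 + b2 M : ℝ) ^ θ := by
      rw [← Real.mul_rpow (by positivity) (by positivity)]
      exact Real.rpow_le_rpow (by positivity) hbb hθ0
    have h4 : ((2 : ℝ) ^ (k + 1))⁻¹ * (2 ^ (k + 1) : ℝ) ^ θ = r * r ^ k := by
      rw [← pow_succ', hr, ← Real.rpow_natCast, ← Real.rpow_natCast, ← Real.rpow_mul (by norm_num),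
        ← Real.rpow_mul (by norm_num), ← Real.rpow_neg (by norm_num), ← Real.rpow_add (by norm_num)]
      congr 1
      ring
    rw [e1, norm_smul, Real.norm_of_nonneg (by positivity)]
    calc ((2 : ℝ) ^ (k + 1))⁻¹ * ‖I (2 ^ k • M + 2 ^ k • M) - I (2 ^ k • M) - I (2 ^ k • M)‖
        ≤ ((2 : ℝ) ^ (k + 1))⁻¹ * (C * ((2 ^ (k + 1) : ℝ) ^ θ * (1 + b2 M : ℝ) ^ θ)) := by
          apply mul_le_mul_of_nonneg_left _ (by positivity)
          exact h2.trans (mul_le_mul_of_nonneg_left h3 hC)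
      _ = C * (1 + b2 M : ℝ) ^ θ * (((2 : ℝ) ^ (k + 1))⁻¹ * (2 ^ (k + 1) : ℝ) ^ θ) := by ring
      _ = C * (1 + b2 M : ℝ) ^ θ * r * r ^ k := by rw [h4]; ring
  have hcau : ∀ M, CauchySeq (a M) := fun M =>
    cauchySeq_of_le_geometric r _ hr1 (fun k => by
      rw [dist_comm, dist_eq_norm]; exact hstep M k)
  choose J hJ using fun M => cauchySeq_tendsto_of_complete (hcau M)
  have hclose : ∀ M, ‖I M - J M‖ ≤ C / (2 ^ (1 - θ) - 1) * (1 + b2 M : ℝ) ^ θ := by
    intro M
    have h1 := dist_le_of_le_geometric_of_tendsto₀ r (C * (1 + b2 M : ℝ) ^ θ * r) hr1 (fun k => by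
      rw [dist_comm, dist_eq_norm]; exact hstep M k) (hJ M)
    rw [ha0, dist_eq_norm] at h1
    refine h1.trans (le_of_eq ?_)
    have h2 : (2 : ℝ) ^ (1 - θ) = r⁻¹ := by
      rw [hr, ← Real.rpow_neg (by norm_num)]
      congr 1
      ring
    rw [h2]
    have h3 : r⁻¹ - 1 = (1 - r) / r := by field_simp
    rw [h3]
    have : 1 - r ≠ 0 := by linarith
    field_simp
  have hadd : ∀ M N, J (M + N) = J M + J N := by
    intro M N
    have h1 : Tendsto (fun k => a (M + N) k - (a M k + a N k)) atTop (𝓝 (J (M + N) - (J M + J N))) :=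
      (hJ (M + N)).sub ((hJ M).add (hJ N))
    have h2 : Tendsto (fun k => a (M + N) k - (a M k + a N k)) atTop (𝓝 0) := by
      apply squeeze_zero_norm (a := fun k => C * (1 + b2 M + b2 N : ℝ) ^ θ * r ^ k)
      · intro k
        have e1 : a (M + N) k - (a M k + a N k) = ((2 : ℝ) ^ k)⁻¹ •
            (I (2 ^ k • M + 2 ^ k • N) - I (2 ^ k • M) - I (2 ^ k • N)) := by
          simp only [a]
          rw [smul_add (2 ^ k) M N, smul_sub, smul_sub, sub_sub]
        have hbb : (1 + (b2 (2 ^ k • M) : ℝ) + (b2 (2 ^ k • N) : ℝ)) ≤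
            2 ^ k * (1 + b2 M + b2 N : ℝ) := by
          rw [b2_nsmul, b2_nsmul]
          push_cast
          have : (1 : ℝ) ≤ 2 ^ k := one_le_pow₀ (by norm_num)
          nlinarith
        have h3 : (1 + (b2 (2 ^ k • M) : ℝ) + (b2 (2 ^ k • N) : ℝ)) ^ θ ≤
            (2 ^ k : ℝ) ^ θ * (1 + b2 M + b2 N : ℝ) ^ θ := by
          rw [← Real.mul_rpow (by positivity) (by positivity)]
          exact Real.rpow_le_rpow (by positivity) hbb hθ0
        have h4 : ((2 : ℝ) ^ k)⁻¹ * (2 ^ k : ℝ) ^ θ = r ^ k := by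
          rw [hr, ← Real.rpow_natCast, ← Real.rpow_natCast, ← Real.rpow_mul (by norm_num),
            ← Real.rpow_mul (by norm_num), ← Real.rpow_neg (by norm_num),
            ← Real.rpow_add (by norm_num)]
          congr 1
          ring
        rw [e1, norm_smul, Real.norm_of_nonneg (by positivity)]
        calc ((2 : ℝ) ^ k)⁻¹ * ‖I (2 ^ k • M + 2 ^ k • N) - I (2 ^ k • M) - I (2 ^ k • N)‖
            ≤ ((2 : ℝ) ^ k)⁻¹ * (C * ((2 ^ k : ℝ) ^ θ * (1 + b2 M + b2 N : ℝ) ^ θ)) := by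
              apply mul_le_mul_of_nonneg_left _ (by positivity)
              exact (hI _ _).trans (mul_le_mul_of_nonneg_left h3 hC)
          _ = C * (1 + b2 M + b2 N : ℝ) ^ θ * (((2 : ℝ) ^ k)⁻¹ * (2 ^ k : ℝ) ^ θ) := by ring
          _ = C * (1 + b2 M + b2 N : ℝ) ^ θ * r ^ k := by rw [h4]
      · have := (tendsto_pow_atTop_nhds_zero_of_lt_one hr0.le hr1).const_mul
          (C * (1 + b2 M + b2 N : ℝ) ^ θ)
        simpa using this
    have h3 := tendsto_nhds_unique h1 h2
    exact sub_eq_zero.1 h3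
  refine ⟨J CP2, J CP2bar, fun M => ?_⟩
  have h1 := linear_of_additive J hadd M
  have h2 : I M - (bPlus M : ℝ) • J CP2 - (bMinus M : ℝ) • J CP2bar = I M - J M := by
    rw [h1, sub_sub]
  rw [h2]
  exact hclose M

end Pool.Agent.Results.MP_cb9bff_gt.QuasiAdditiveInvariants
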